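import Pool.Agent.GX.Forest

/-! # TT02: attaching prescribed pendant pieces -/

set_option autoImplicit false

namespace Pool.Agent.GX

open Pool.Agent.WT.Trees (PF pGraph)

namespace AttachAux

variable {V : Type}

/-- the glued parent function: `p'` outside `S`, `t` on `tops`, `q` elsewhere -/
def glue [DecidableEq V] (S tops : Finset V) (q : V → V) (p' : {x : V // x ∉ S} → {x : V // x ∉ S})
    (t : {x : V // x ∈ tops} → {x : V // x ∉ S}) (x : V) : V :=
  if h : x ∉ S then (p' ⟨x, h⟩).1 else if h' : x ∈ tops then (t ⟨x, h'⟩).1 else q x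

theorem glue_out [DecidableEq V] {S tops : Finset V} {q : V → V} {p' : {x : V // x ∉ S} → {x : V // x ∉ S}}
    {t : {x : V // x ∈ tops} → {x : V // x ∉ S}} {x : V} (h : x ∉ S) :
    glue S tops q p' t x = (p' ⟨x, h⟩).1 := by
  unfold glue
  rw [dif_pos h]

theorem glue_top [DecidableEq V] {S tops : Finset V} {q : V → V} {p' : {x : V // x ∉ S} → {x : V // x ∉ S}}
    {t : {x : V // x ∈ tops} → {x : V // x ∉ S}} {x : V} (h : x ∈ S) (h' : x ∈ tops) :
    glue S tops q p' t x = (t ⟨x, h'⟩).1 := by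
  unfold glue
  rw [dif_neg (not_not.2 h), dif_pos h']

theorem glue_mid [DecidableEq V] {S tops : Finset V} {q : V → V} {p' : {x : V // x ∉ S} → {x : V // x ∉ S}}
    {t : {x : V // x ∈ tops} → {x : V // x ∉ S}} {x : V} (h : x ∈ S) (h' : x ∉ tops) :
    glue S tops q p' t x = q x := by
  unfold glue
  rw [dif_neg (not_not.2 h), dif_neg h']

/-- iterates of a map preserving the complement of `S` -/
theorem iter_out {S : Finset V} {p : V → V} {p' : {x : V // x ∉ S} → {x : V // x ∉ S}}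
    (h : ∀ x : {x : V // x ∉ S}, (p' x).1 = p x.1) (m : ℕ) :
    ∀ x : {x : V // x ∉ S}, (p'^[m] x).1 = p^[m] x.1 := by
  induction m with
  | zero => intro x; rfl
  | succ m ih =>
    intro x
    rw [Function.iterate_succ_apply, Function.iterate_succ_apply, ih (p' x), h x]

theorem iter_in {S tops : Finset V} {p q : V → V} (h : ∀ x ∈ S, x ∉ tops → p x = q x) (x : V)
    (m : ℕ) (hm : ∀ j < m, q^[j] x ∈ S ∧ q^[j] x ∉ tops) : p^[m] x = q^[m] x := by
  induction m with
  | zero => rfl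
  | succ m ih =>
    rw [Function.iterate_succ_apply', Function.iterate_succ_apply',
      ih (fun j hj => hm j (Nat.lt_succ_of_lt hj))]
    exact h _ (hm m (Nat.lt_succ_self m)).1 (hm m (Nat.lt_succ_self m)).2

/-- the bijection behind the count -/
def equiv [DecidableEq V] (r : V) (S tops : Finset V) (hr : r ∉ S)
    (htops : tops ⊆ S) (q : V → V)
    (hwf : ∀ x ∈ S, ∃ m, q^[m] x ∈ tops ∧ ∀ j < m, q^[j] x ∈ S ∧ q^[j] x ∉ tops) :
    {p : V → V | p ∈ PF r ∧ (∀ x ∈ S, x ∉ tops → p x = q x) ∧ (∀ x ∈ tops, p x ∉ S) ∧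
      (∀ x, x ∉ S → p x ∉ S)} ≃
    (PF (⟨r, hr⟩ : {x : V // x ∉ S})) × ({x : V // x ∈ tops} → {x : V // x ∉ S}) where
  toFun p := (⟨fun x => ⟨p.1 x.1, p.2.2.2.2 x.1 x.2⟩, by
      refine ⟨Subtype.ext p.2.1.1, fun u => ?_⟩
      obtain ⟨m, hm⟩ := p.2.1.2 u.1
      refine ⟨m, Subtype.ext ?_⟩
      rw [iter_out (p := p.1) (fun x => rfl) m u, hm]⟩,
    fun x => ⟨p.1 x.1, p.2.2.2.1 x.1 x.2⟩)
  invFun a := ⟨glue S tops q a.1.1 a.2, by
    have ho : ∀ x : {x : V // x ∉ S}, (a.1.1 x).1 = glue S tops q a.1.1 a.2 x.1 :=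
      fun x => (glue_out x.2).symm
    have hm : ∀ x ∈ S, x ∉ tops → glue S tops q a.1.1 a.2 x = q x :=
      fun x hx hx' => glue_mid hx hx'
    have hout : ∀ u, u ∉ S → ∃ m, (glue S tops q a.1.1 a.2)^[m] u = r := by
      intro u hu
      obtain ⟨m, hm⟩ := a.1.2.2 ⟨u, hu⟩
      refine ⟨m, ?_⟩
      rw [← iter_out ho m ⟨u, hu⟩, hm]
    refine ⟨⟨?_, ?_⟩, hm, ?_, ?_⟩
    · rw [glue_out hr, a.1.2.1]
    · intro u
      by_cases hu : u ∈ S
      · obtain ⟨m, hm1, hm2⟩ := hwf u hu
        have h1 := iter_in hm u m hm2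
        have h2 : (glue S tops q a.1.1 a.2) (q^[m] u) ∉ S := by
          rw [glue_top (htops hm1) hm1]
          exact (a.2 ⟨_, hm1⟩).2
        obtain ⟨k, hk⟩ := hout _ h2
        refine ⟨k + (m + 1), ?_⟩
        rw [Function.iterate_add_apply, Function.iterate_succ_apply', h1]
        exact hk
      · exact hout u hu
    · intro x hx
      rw [glue_top (htops hx) hx]
      exact (a.2 ⟨x, hx⟩).2
    · intro x hx
      rw [glue_out hx]
      exact (a.1.1 ⟨x, hx⟩).2⟩
  left_inv p := by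
    apply Subtype.ext
    funext x
    by_cases hx : x ∈ S
    · by_cases hx' : x ∈ tops
      · exact glue_top hx hx'
      · exact (glue_mid hx hx').trans (p.2.2.1 x hx hx').symm
    · exact glue_out hx
  right_inv a := by
    refine Prod.ext (Subtype.ext (funext fun x => Subtype.ext ?_)) (funext fun x => Subtype.ext ?_)
    · exact glue_out x.2
    · exact glue_top (htops x.2) x.2

end AttachAux

/-- The number of trees in which the vertices of `S` hang down as prescribed by `q` and only the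
elements of `tops` have a parent outside `S` (which is free). -/
theorem card_attach {V : Type} [Fintype V] [DecidableEq V] (r : V) (S tops : Finset V) (hr : r ∉ S)
    (htops : tops ⊆ S) (q : V → V) (hq : ∀ x ∈ S, x ∉ tops → q x ∈ S)
    (hwf : ∀ x ∈ S, ∃ m, q^[m] x ∈ tops ∧ ∀ j < m, q^[j] x ∈ S ∧ q^[j] x ∉ tops) :
    {p : V → V | p ∈ PF r ∧ (∀ x ∈ S, x ∉ tops → p x = q x) ∧ (∀ x ∈ tops, p x ∉ S) ∧
      (∀ x, x ∉ S → p x ∉ S)}.ncard =
      (Fintype.card V - S.card) ^ (Fintype.card V - S.card - 2) *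
        (Fintype.card V - S.card) ^ tops.card := by
  have hc : Fintype.card {x : V // x ∉ S} = Fintype.card V - S.card := by
    rw [Fintype.card_subtype_compl, Fintype.card_coe]
  rw [← Nat.card_coe_set_eq, Nat.card_congr (AttachAux.equiv r S tops hr htops q hwf),
    Nat.card_prod, Nat.card_fun, Nat.card_coe_set_eq, card_PF, Nat.card_eq_fintype_card (α := {x : V // x ∉ S}),
    Nat.card_eq_fintype_card (α := {x : V // x ∈ tops}), hc, Fintype.card_coe]

end Pool.Agent.GX
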