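import Mathlib
import Pool.Agent.WT.Trees

/-!
# Exact gracefulness of almost all trees: basic definitions

Trees on a vertex set `V` are described by parent functions `p : V → V` with root `r`
(`WT.Trees.PF r`: `p r = r` and every orbit ends in `r`).
-/

set_option autoImplicit false

open scoped BigOperators

namespace Pool.Agent.GX

open Pool.Agent.WT.Trees (PF pGraph)

/-- forests with root set `R`, as parent functions (the identity on `R`, every orbit meets `R`) -/
def FF {V : Type} (R : Set V) : Set (V → V) := {p | (∀ r ∈ R, p r = r) ∧ ∀ u, ∃ m, p^[m] u ∈ R}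

/-- the vertices below `v` (including `v`) -/
def below {V : Type} (p : V → V) (v : V) : Set V := {u | ∃ m, p^[m] u = v}

/-- the number of vertices below `v` -/
noncomputable def sz {V : Type} (p : V → V) (v : V) : ℕ := (below p v).ncard

/-- the children of `v` in the tree with root `r` -/
def ch {V : Type} (r : V) (p : V → V) (v : V) : Set V := {u | u ≠ r ∧ p u = v}

/-- the number of neighbours of `v` in the tree with root `r` and parent function `p` -/
noncomputable def dg {V : Type} (p : V → V) (v : V) : ℕ := ((pGraph p).neighborSet v).ncard

/-- `φ` is a pendant copy of the rooted tree `q` (on `Fin k`, root `0`) in `p` -/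
structure Pend {V : Type} {k : ℕ} [NeZero k] (r : V) (p : V → V) (q : Fin k → Fin k)
    (φ : Fin k → V) : Prop where
  inj : Function.Injective φ
  root : ∀ x, φ x ≠ r
  par : ∀ x, x ≠ 0 → p (φ x) = φ (q x)
  closed : ∀ u, p u ∈ Set.range φ → u ∈ Set.range φ
  top : p (φ 0) ∉ Set.range φ

end Pool.Agent.GX
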