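import Pool.Agent.GX.Defs

/-! # TT01: the forest formula and Cayley's formula -/

set_option autoImplicit false

namespace Pool.Agent.GX

open Pool.Agent.WT.Trees (PF pGraph)

namespace ForestAux

open Finset

variable {V : Type}

theorem iter_eq [DecidableEq V] (p : V → V) (v x w : V) (m : ℕ) (h : ∀ j < m, p^[j] w ≠ v) :
    (Function.update p v x)^[m] w = p^[m] w := by
  induction m with
  | zero => rfl
  | succ m ih =>
    rw [Function.iterate_succ_apply', Function.iterate_succ_apply',
      ih fun j hj => h j (Nat.lt_succ_of_lt hj), Function.update_of_ne (h m (Nat.lt_succ_self m))]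

theorem fixed_of {R : Set V} {p : V → V} (hp : p ∈ FF R) {u v : V} (hv : v ∈ R) {m M : ℕ}
    (h : p^[m] u = v) (hM : m ≤ M) : p^[M] u = v := by
  obtain ⟨k, rfl⟩ := Nat.exists_eq_add_of_le hM
  rw [add_comm, Function.iterate_add_apply, h]
  exact Function.iterate_fixed (hp.1 v hv) k

theorem root_unique {R : Set V} {p : V → V} (hp : p ∈ FF R) {u v v' : V} (hv : v ∈ R) (hv' : v' ∈ R)
    (h : ∃ m, p^[m] u = v) (h' : ∃ m, p^[m] u = v') : v = v' := by
  obtain ⟨m, h⟩ := h
  obtain ⟨m', h'⟩ := h'
  rw [← fixed_of hp hv h (le_max_left m m'), fixed_of hp hv' h' (le_max_right m m')]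

theorem update_mem [DecidableEq V] {R : Set V} {v : V} (hv : v ∉ R) {p : V → V}
    (hp : p ∈ FF (insert v R)) {u : V} (hu : ¬ ∃ m, p^[m] u = v) :
    Function.update p v u ∈ FF R := by
  constructor
  · intro r hr
    have hrv : r ≠ v := fun h => hv (h ▸ hr)
    rw [Function.update_of_ne hrv]
    exact hp.1 r (Or.inr hr)
  · have key : ∀ w, (¬ ∃ m, p^[m] w = v) → ∃ m, (Function.update p v u)^[m] w ∈ R := by
      intro w hw
      push Not at hw
      obtain ⟨m, hm⟩ := hp.2 w
      refine ⟨m, ?_⟩
      rw [iter_eq p v u w m fun j _ => hw j]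
      exact hm.resolve_left (hw m)
    intro w
    by_cases hw : ∃ m, p^[m] w = v
    · classical
      have h1 : (Function.update p v u)^[Nat.find hw] w = v := by
        rw [iter_eq p v u w _ fun j hj => Nat.find_min hw hj]
        exact Nat.find_spec hw
      obtain ⟨m, hm⟩ := key u hu
      refine ⟨m + 1 + Nat.find hw, ?_⟩
      rw [Function.iterate_add_apply, h1, Function.iterate_succ_apply, Function.update_self]
      exact hm
    · exact key w hw

theorem update_mem' [DecidableEq V] {R : Set V} {v : V} (hv : v ∉ R) {q : V → V} (hq : q ∈ FF R) :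
    Function.update q v v ∈ FF (insert v R) ∧ ¬ ∃ m, (Function.update q v v)^[m] (q v) = v := by
  classical
  refine ⟨⟨?_, ?_⟩, ?_⟩
  · intro r hr
    by_cases hrv : r = v
    · rw [hrv, Function.update_self]
    · rw [Function.update_of_ne hrv]
      exact hq.1 r (hr.resolve_left hrv)
  · intro w
    by_cases hw : ∃ m, q^[m] w = v
    · refine ⟨Nat.find hw, ?_⟩
      rw [iter_eq q v v w _ fun j hj => Nat.find_min hw hj]
      exact Or.inl (Nat.find_spec hw)
    · push Not at hw
      obtain ⟨m, hm⟩ := hq.2 w
      refine ⟨m, ?_⟩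
      rw [iter_eq q v v w _ fun j _ => hw j]
      exact Or.inr hm
  · intro hex
    have h1 : (Function.update (Function.update q v v) v (q v))^[Nat.find hex] (q v) = v := by
      rw [iter_eq (Function.update q v v) v (q v) (q v) _ fun j hj => Nat.find_min hex hj]
      exact Nat.find_spec hex
    rw [Function.update_idem, Function.update_eq_self] at h1
    have h2 : q^[Nat.find hex + 1] v = v := by
      rw [Function.iterate_succ_apply]
      exact h1
    obtain ⟨M, hM⟩ := hq.2 v
    have h3 : q^[(Nat.find hex + 1) * M] v = v := by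
      rw [Function.iterate_mul]
      exact Function.iterate_fixed h2 M
    have h4 : q^[(Nat.find hex + 1) * M] v = q^[M] v :=
      fixed_of hq hM rfl (Nat.le_mul_of_pos_left M (Nat.succ_pos _))
    rw [h3] at h4
    exact hv (h4 ▸ hM)

theorem conj_iter (σ : Equiv.Perm V) (hσ : ∀ x, σ (σ x) = x) (p : V → V) (m : ℕ) (u : V) :
    (fun x => σ (p (σ x)))^[m] u = σ (p^[m] (σ u)) := by
  induction m with
  | zero => exact (hσ u).symm
  | succ m ih => rw [Function.iterate_succ_apply', ih, Function.iterate_succ_apply', hσ]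

theorem conj_mem {R : Set V} (σ : Equiv.Perm V) (hσ : ∀ x, σ (σ x) = x) (hR : ∀ x ∈ R, σ x ∈ R)
    {p : V → V} (hp : p ∈ FF R) : (fun x => σ (p (σ x))) ∈ FF R := by
  constructor
  · intro r hr
    beta_reduce
    rw [hp.1 _ (hR r hr), hσ]
  · intro u
    obtain ⟨m, hm⟩ := hp.2 (σ u)
    refine ⟨m, ?_⟩
    rw [conj_iter σ hσ]
    exact hR _ hm

open Classical in
/-- the forests as a finset -/
noncomputable def Fs [Fintype V] (R : Set V) : Finset (V → V) := univ.filter (· ∈ FF R)

open Classical in
/-- the pairs of a forest and a vertex of the tree with root `v` -/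
noncomputable def Ts [Fintype V] (R : Set V) (v : V) : Finset ((V → V) × V) :=
  (Fs R ×ˢ univ).filter (fun q => ∃ m, q.1^[m] q.2 = v)

theorem mem_Fs [Fintype V] {R : Set V} {p : V → V} : p ∈ Fs R ↔ p ∈ FF R := by
  classical
  simp [Fs]

theorem mem_Ts [Fintype V] {R : Set V} {v : V} {q : (V → V) × V} :
    q ∈ Ts R v ↔ q.1 ∈ FF R ∧ ∃ m, q.1^[m] q.2 = v := by
  classical
  rw [Ts, mem_filter, mem_product, mem_Fs]
  simp

theorem ncard_FF [Fintype V] (R : Set V) : (FF R).ncard = (Fs R).card := by
  rw [← Set.ncard_coe_finset]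
  congr 1
  ext p
  rw [mem_coe, mem_Fs]

/-- (a) -/
theorem card_a [Fintype V] {R : Set V} {v : V} (hv : v ∉ R) :
    (Fs R).card + (Ts (insert v R) v).card = (Fs (insert v R)).card * Fintype.card V := by
  classical
  have h1 : (Fs (insert v R)).card * Fintype.card V = (Fs (insert v R) ×ˢ (univ : Finset V)).card := by
    rw [card_product, card_univ]
  rw [h1, ← card_filter_add_card_filter_not (s := Fs (insert v R) ×ˢ (univ : Finset V))
    (fun q => ∃ m, q.1^[m] q.2 = v), add_comm]
  congr 1
  symm
  refine card_nbij' (fun q => Function.update q.1 v q.2) (fun q => (Function.update q v v, q v))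
    ?_ ?_ ?_ ?_
  · intro q hq
    rw [mem_coe, mem_filter, mem_product, mem_Fs] at hq
    rw [mem_coe, mem_Fs]
    exact update_mem hv hq.1.1 hq.2
  · intro q hq
    rw [mem_coe, mem_Fs] at hq
    rw [mem_coe, mem_filter, mem_product, mem_Fs]
    obtain ⟨h2, h3⟩ := update_mem' hv hq
    exact ⟨⟨h2, mem_univ _⟩, h3⟩
  · intro q hq
    rw [mem_coe, mem_filter, mem_product, mem_Fs] at hq
    have h2 : q.1 v = v := hq.1.1.1 v (Or.inl rfl)
    refine Prod.ext ?_ ?_
    · change Function.update (Function.update q.1 v q.2) v v = q.1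
      rw [Function.update_idem]
      funext x
      by_cases hx : x = v
      · rw [hx, Function.update_self, h2]
      · rw [Function.update_of_ne hx]
    · change Function.update q.1 v q.2 v = q.2
      rw [Function.update_self]
  · intro q _
    change Function.update (Function.update q v v) v (q v) = q
    rw [Function.update_idem, Function.update_eq_self]

/-- (b) -/
theorem card_b [Fintype V] [DecidableEq V] (R : Finset V) :
    ∑ v ∈ R, (Ts (R : Set V) v).card = (Fs (R : Set V)).card * Fintype.card V := by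
  have h1 : (Fs (R : Set V)).card * Fintype.card V =
      (Fs (R : Set V) ×ˢ (univ : Finset V)).card := by
    rw [card_product, card_univ]
  have h2 : Fs (R : Set V) ×ˢ (univ : Finset V) = R.biUnion (fun v => Ts (R : Set V) v) := by
    ext q
    rw [mem_product, mem_Fs, mem_biUnion]
    constructor
    · rintro ⟨h3, -⟩
      obtain ⟨m, hm⟩ := h3.2 q.2
      exact ⟨_, mem_coe.1 hm, mem_Ts.2 ⟨h3, m, rfl⟩⟩
    · rintro ⟨v, -, h3⟩
      exact ⟨(mem_Ts.1 h3).1, mem_univ _⟩
  rw [h1, h2, card_biUnion]
  intro v hv v' hv' hne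
  refine disjoint_left.2 fun q hq hq' => ?_
  rw [mem_Ts] at hq hq'
  exact hne (root_unique hq.1 (mem_coe.2 hv) (mem_coe.2 hv') hq.2 hq'.2)

/-- (c) -/
theorem card_c [Fintype V] (R : Set V) {v v' : V} (hv : v ∈ R) (hv' : v' ∈ R) :
    (Ts R v).card = (Ts R v').card := by
  classical
  have hσ : ∀ x, Equiv.swap v v' (Equiv.swap v v' x) = x := Equiv.swap_apply_self v v'
  have hR : ∀ x ∈ R, Equiv.swap v v' x ∈ R := by
    intro x hx
    by_cases h1 : x = v
    · rw [h1, Equiv.swap_apply_left]; exact hv'
    · by_cases h2 : x = v'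
      · rw [h2, Equiv.swap_apply_right]; exact hv
      · rw [Equiv.swap_apply_of_ne_of_ne h1 h2]; exact hx
  have hmap : ∀ v₁ v₂ : V, Equiv.swap v v' v₁ = v₂ → ∀ q ∈ Ts R v₁,
      ((fun x => Equiv.swap v v' (q.1 (Equiv.swap v v' x)), Equiv.swap v v' q.2) : (V → V) × V) ∈
        Ts R v₂ := by
    intro v₁ v₂ h12 q hq
    rw [mem_Ts] at hq ⊢
    refine ⟨conj_mem _ hσ hR hq.1, ?_⟩
    obtain ⟨m, hm⟩ := hq.2
    refine ⟨m, ?_⟩
    rw [conj_iter _ hσ, hσ, hm, h12]
  have hinv : ∀ q : (V → V) × V,
      ((fun x => Equiv.swap v v' ((fun y => Equiv.swap v v' (q.1 (Equiv.swap v v' y)))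
        (Equiv.swap v v' x)), Equiv.swap v v' (Equiv.swap v v' q.2)) : (V → V) × V) = q := by
    intro q
    refine Prod.ext ?_ (hσ _)
    funext x
    change Equiv.swap v v' (Equiv.swap v v' (q.1 (Equiv.swap v v' (Equiv.swap v v' x)))) = q.1 x
    rw [hσ, hσ]
  refine card_nbij'
    (fun q => (fun x => Equiv.swap v v' (q.1 (Equiv.swap v v' x)), Equiv.swap v v' q.2))
    (fun q => (fun x => Equiv.swap v v' (q.1 (Equiv.swap v v' x)), Equiv.swap v v' q.2))
    ?_ ?_ ?_ ?_
  · intro q hq
    exact hmap v v' (Equiv.swap_apply_left _ _) q hq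
  · intro q hq
    exact hmap v' v (Equiv.swap_apply_right _ _) q hq
  · intro q _
    exact hinv q
  · intro q _
    exact hinv q

theorem key [Fintype V] [DecidableEq V] {R : Finset V} {v : V} (hv : v ∉ R) :
    (R.card + 1) * (Fs (R : Set V)).card =
      R.card * Fintype.card V * (Fs ((insert v R : Finset V) : Set V)).card := by
  have ha := card_a (R := (R : Set V)) (v := v) (by simpa using hv)
  have hb := card_b (insert v R)
  have hc : ∑ w ∈ insert v R, (Ts ((insert v R : Finset V) : Set V) w).card =
      (R.card + 1) * (Ts ((insert v R : Finset V) : Set V) v).card := by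
    rw [← card_insert_of_notMem hv, ← smul_eq_mul, ← sum_const]
    refine sum_congr rfl fun w hw => ?_
    exact card_c _ (mem_coe.2 hw) (mem_coe.2 (mem_insert_self v R))
  rw [hb] at hc
  rw [← coe_insert] at ha
  generalize (Fs ((insert v R : Finset V) : Set V)).card = F' at *
  generalize (Ts ((insert v R : Finset V) : Set V) v).card = T at *
  generalize (Fs (R : Set V)).card = F at *
  generalize Fintype.card V = n at *
  generalize R.card = r at *
  have h1 : (r + 1) * F + F' * n = r * n * F' + F' * n := by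
    calc (r + 1) * F + F' * n = (r + 1) * (F + T) := by rw [hc]; ring
      _ = (r + 1) * (F' * n) := by rw [ha]
      _ = r * n * F' + F' * n := by ring
  exact Nat.add_right_cancel h1

theorem Fs_univ [Fintype V] : (Fs (Set.univ : Set V)).card = 1 := by
  rw [card_eq_one]
  refine ⟨id, ?_⟩
  ext p
  rw [mem_Fs, mem_singleton]
  constructor
  · intro h
    funext x
    exact h.1 x (Set.mem_univ x)
  · rintro rfl
    exact ⟨fun _ _ => rfl, fun _ => ⟨0, Set.mem_univ _⟩⟩

theorem main [Fintype V] [DecidableEq V] (k : ℕ) : ∀ R : Finset V, R.card + k = Fintype.card V →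
    (Fs (R : Set V)).card * Fintype.card V = R.card * (Fintype.card V) ^ k := by
  induction k with
  | zero =>
    intro R hR
    have h1 : R = univ := by
      rw [← card_eq_iff_eq_univ]
      exact hR
    rw [h1, coe_univ, Fs_univ, one_mul, pow_zero, mul_one, card_univ]
  | succ k ih =>
    intro R hR
    have h1 : R ≠ univ := by
      rintro rfl
      rw [card_univ] at hR
      omega
    obtain ⟨v, hv⟩ : ∃ v, v ∉ R := by
      by_contra hcon
      push Not at hcon
      exact h1 (eq_univ_iff_forall.2 hcon)
    have h2 := ih (insert v R) (by rw [card_insert_of_notMem hv]; omega)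
    rw [card_insert_of_notMem hv] at h2
    have h3 := key hv
    apply Nat.eq_of_mul_eq_mul_left (Nat.succ_pos R.card)
    calc (R.card + 1) * ((Fs (R : Set V)).card * Fintype.card V)
        = ((R.card + 1) * (Fs (R : Set V)).card) * Fintype.card V := by ring
      _ = R.card * Fintype.card V * ((Fs ((insert v R : Finset V) : Set V)).card *
          Fintype.card V) := by
          rw [h3]; ring
      _ = R.card * Fintype.card V * ((R.card + 1) * Fintype.card V ^ k) := by rw [h2]
      _ = (R.card + 1) * (R.card * Fintype.card V ^ (k + 1)) := by ring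

end ForestAux

open ForestAux in
/-- forests on `n` labelled vertices with a given root set of `r` elements: `r n^(n-r-1)` -/
theorem card_FF {V : Type} [Fintype V] (R : Finset V) (hR : R.Nonempty) :
    (FF (R : Set V)).ncard * Fintype.card V = R.card * (Fintype.card V) ^ (Fintype.card V - R.card) := by
  classical
  rw [ncard_FF]
  exact main _ R (Nat.add_sub_cancel' (Finset.card_le_univ R))

/-- Cayley's formula for trees with a given root -/
theorem card_PF {V : Type} [Fintype V] (r : V) :
    (PF r).ncard = (Fintype.card V) ^ (Fintype.card V - 2) := by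
  classical
  have h1 : PF r = FF (({r} : Finset V) : Set V) := by
    ext p
    simp [Pool.Agent.WT.Trees.PF, FF]
  have h2 := card_FF ({r} : Finset V) (Finset.singleton_nonempty r)
  rw [h1]
  rw [Finset.card_singleton, one_mul] at h2
  have h0 : 0 < Fintype.card V := Fintype.card_pos_iff.2 ⟨r⟩
  apply Nat.eq_of_mul_eq_mul_right h0
  rw [h2, ← pow_succ]
  rcases Nat.lt_or_ge (Fintype.card V) 2 with h | h
  · have h3 : Fintype.card V = 1 := by omega
    rw [h3, one_pow, one_pow]
  · congr 1
    omega

end Pool.Agent.GX
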