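import Pool.Agent.GX.Attach

/-! # TT03: the number of trees with a vertex `v` with exactly `k` vertices below it -/

set_option autoImplicit false

open scoped BigOperators

namespace Pool.Agent.GX

open Pool.Agent.WT.Trees (PF pGraph)

namespace FringeAux

open Pool.Agent.WT.Trees

variable {V : Type}

/-- a periodic point is the root -/
theorem eq_root_of_periodic {p : V → V} {r : V} (hp : p ∈ PF r) {v : V} {m : ℕ} (hm : 0 < m)
    (h : p^[m] v = v) : v = r := by
  obtain ⟨l, hl⟩ := hp.2 v
  have h1 : p^[m * l] v = v := by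
    rw [Function.iterate_mul]
    exact Function.iterate_fixed h l
  have h2 : p^[m * l] v = r := by
    have h3 : m * l = (m * l - l) + l := by
      have : l ≤ m * l := Nat.le_mul_of_pos_left l hm
      omega
    rw [h3, Function.iterate_add_apply, hl, iterate_root hp.1]
  exact h1.symm.trans h2

theorem root_notMem_below {p : V → V} {r : V} (hp : p ∈ PF r) {v : V} (hv : v ≠ r) :
    r ∉ below p v := by
  rintro ⟨m, hm⟩
  rw [iterate_root hp.1] at hm
  exact hv hm.symm

theorem self_mem_below (p : V → V) (v : V) : v ∈ below p v := ⟨0, rfl⟩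

theorem mem_below_of_parent {p : V → V} {v x : V} (h : p x ∈ below p v) : x ∈ below p v := by
  obtain ⟨m, hm⟩ := h
  exact ⟨m + 1, by rw [Function.iterate_succ_apply]; exact hm⟩

theorem parent_mem_below {p : V → V} {v x : V} (h : x ∈ below p v) (hx : x ≠ v) :
    p x ∈ below p v := by
  obtain ⟨m, hm⟩ := h
  cases m with
  | zero => exact absurd hm hx
  | succ m => exact ⟨m, by rw [Function.iterate_succ_apply] at hm; exact hm⟩

theorem top_notMem_below {p : V → V} {r : V} (hp : p ∈ PF r) {v : V} (hv : v ≠ r) :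
    p v ∉ below p v := by
  rintro ⟨m, hm⟩
  rw [← Function.iterate_succ_apply] at hm
  exact hv (eq_root_of_periodic hp (Nat.succ_pos m) hm)

variable [DecidableEq V]

/-- the extension of a function on `S` -/
def ext (S : Finset V) (q : S → S) : V → V := fun x => if h : x ∈ S then (q ⟨x, h⟩ : V) else x

theorem ext_mem (S : Finset V) (q : S → S) {x : V} (hx : x ∈ S) : ext S q x = q ⟨x, hx⟩ := by
  rw [ext, dif_pos hx]

theorem ext_iterate (S : Finset V) (q : S → S) (m : ℕ) (x : S) :
    (ext S q)^[m] (x : V) = (q^[m] x : V) := by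
  induction m generalizing x with
  | zero => rfl
  | succ m ih =>
    rw [Function.iterate_succ_apply, Function.iterate_succ_apply, ext_mem S q x.2, ih]

/-- the restriction of `p` to `S`, with `v` as root -/
def rst (S : Finset V) (v : S) (p : V → V) : S → S := fun x =>
  if x = v then v else if h : p x ∈ S then ⟨p x, h⟩ else v

/-- the first time at which the orbit reaches the root -/
theorem exists_first {q : V → V} {v : V} (hq : q ∈ PF v) (x : V) :
    ∃ m, q^[m] x = v ∧ ∀ j < m, q^[j] x ≠ v := by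
  classical
  exact ⟨Nat.find (hq.2 x), Nat.find_spec (hq.2 x), fun j hj => Nat.find_min (hq.2 x) hj⟩

variable [Fintype V]

/-- the trees with prescribed part below `v` -/
theorem below_iff {p : V → V} {r v : V} {S : Finset V} (hp : p ∈ PF r) (hr : r ∉ S)
    (hv : v ∈ S) (q : S → S) (hq : q ∈ PF (⟨v, hv⟩ : S)) :
    (below p v = (S : Set V) ∧ rst S ⟨v, hv⟩ p = q) ↔
      (∀ x ∈ S, x ∉ ({v} : Finset V) → p x = ext S q x) ∧ (∀ x ∈ ({v} : Finset V), p x ∉ S) ∧
        (∀ x, x ∉ S → p x ∉ S) := by
  have hvr : v ≠ r := fun h => hr (h ▸ hv)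
  constructor
  · rintro ⟨h1, rfl⟩
    refine ⟨fun x hx hxv => ?_, fun x hx => ?_, fun x hx hpx => ?_⟩
    · rw [Finset.mem_singleton] at hxv
      have h2 : p x ∈ S := by
        have h3 : x ∈ below p v := by rw [h1]; exact hx
        have h4 := parent_mem_below h3 hxv
        rw [h1] at h4
        exact h4
      rw [ext_mem S _ hx, rst, if_neg (fun h => hxv (congrArg Subtype.val h)), dif_pos h2]
    · rw [Finset.mem_singleton] at hx
      subst hx
      have h4 := top_notMem_below hp hvr
      rw [h1] at h4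
      exact h4
    · apply hx
      have h3 : p x ∈ below p v := by rw [h1]; exact hpx
      have h4 := mem_below_of_parent h3
      rw [h1] at h4
      exact h4
  · rintro ⟨h1, h2, h3⟩
    have hpx : ∀ x : S, (x : V) ≠ v → p x = q x := by
      intro x hx
      rw [h1 x x.2 (by rw [Finset.mem_singleton]; exact hx), ext_mem S q x.2]
    constructor
    · ext x
      constructor
      · rintro ⟨m, hm⟩
        by_contra hx
        have h4 : ∀ m, p^[m] x ∉ S := by
          intro m
          induction m with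
          | zero => exact hx
          | succ m ih => rw [Function.iterate_succ_apply']; exact h3 _ ih
        exact h4 m (hm ▸ hv)
      · intro hx
        obtain ⟨m, hm1, hm2⟩ := exists_first hq ⟨x, hx⟩
        have h4 : ∀ j ≤ m, p^[j] x = (q^[j] ⟨x, hx⟩ : S) := by
          intro j
          induction j with
          | zero => intro _; rfl
          | succ j ih =>
            intro hj
            rw [Function.iterate_succ_apply', Function.iterate_succ_apply', ih (by omega)]
            refine hpx _ fun h => ?_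
            exact hm2 j (by omega) (Subtype.ext h)
        exact ⟨m, by rw [h4 m le_rfl, hm1]⟩
    · funext x
      rw [rst]
      by_cases hx : x = ⟨v, hv⟩
      · rw [if_pos hx, hx, hq.1]
      · have h5 := hpx x (fun h => hx (Subtype.ext h))
        have h6 : p x ∈ S := by rw [h5]; exact (q x).2
        rw [if_neg hx, dif_pos h6]
        exact Subtype.ext h5

theorem rst_mem {p : V → V} {v : V} {S : Finset V} (hv : v ∈ S)
    (h : below p v = (S : Set V)) : rst S ⟨v, hv⟩ p ∈ PF (⟨v, hv⟩ : S) := by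
  refine ⟨by rw [rst, if_pos rfl], fun x => ?_⟩
  have key : ∀ (m : ℕ) (x : S), p^[m] x = v → ∃ l, (rst S ⟨v, hv⟩ p)^[l] x = ⟨v, hv⟩ := by
    intro m
    induction m with
    | zero =>
      intro x hx
      exact ⟨0, Subtype.ext hx⟩
    | succ m ih =>
      intro x hx
      by_cases hxv : x = ⟨v, hv⟩
      · exact ⟨0, hxv⟩
      · have h1 : (x : V) ∈ below p v := by rw [h]; exact x.2
        have h2 := parent_mem_below h1 (fun h' => hxv (Subtype.ext h'))
        rw [h] at h2
        have h3 : p x ∈ S := h2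
        obtain ⟨l, hl⟩ := ih ⟨p x, h3⟩ (by rw [Function.iterate_succ_apply] at hx; exact hx)
        refine ⟨l + 1, ?_⟩
        rw [Function.iterate_succ_apply, rst, if_neg hxv, dif_pos h3]
        exact hl
  have h1 : (x : V) ∈ below p v := by rw [h]; exact x.2
  obtain ⟨m, hm⟩ := h1
  exact key m x hm

end FringeAux

open FringeAux

/-- `v` has exactly the set `S` below it -/
theorem card_below_eq {V : Type} [Fintype V] [DecidableEq V] (r v : V) (S : Finset V) (hr : r ∉ S)
    (hv : v ∈ S) :
    {p : V → V | p ∈ PF r ∧ below p v = (S : Set V)}.ncard =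
      S.card ^ (S.card - 2) * (Fintype.card V - S.card) ^ (Fintype.card V - S.card - 1) := by
  classical
  have hlt : S.card < Fintype.card V := by
    rw [← Finset.card_univ]
    exact Finset.card_lt_card (Finset.ssubset_univ_iff.2 fun h => hr (h ▸ Finset.mem_univ r))
  have hQ : (PF (⟨v, hv⟩ : S)).ncard = S.card ^ (S.card - 2) := by
    rw [card_PF, Fintype.card_coe]
  have hfib : ∀ q ∈ PF (⟨v, hv⟩ : S),
      {p : V → V | (p ∈ PF r ∧ below p v = (S : Set V)) ∧ rst S ⟨v, hv⟩ p = q}.ncard =
        (Fintype.card V - S.card) ^ (Fintype.card V - S.card - 1) := by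
    intro q hq
    have h1 : {p : V → V | (p ∈ PF r ∧ below p v = (S : Set V)) ∧ rst S ⟨v, hv⟩ p = q} =
        {p : V → V | p ∈ PF r ∧ (∀ x ∈ S, x ∉ ({v} : Finset V) → p x = ext S q x) ∧
          (∀ x ∈ ({v} : Finset V), p x ∉ S) ∧ (∀ x, x ∉ S → p x ∉ S)} := by
      ext p
      simp only [Set.mem_setOf_eq, and_assoc]
      constructor
      · rintro ⟨hp, h⟩
        exact ⟨hp, (below_iff hp hr hv q hq).1 h⟩
      · rintro ⟨hp, h⟩
        exact ⟨hp, (below_iff hp hr hv q hq).2 h⟩
    rw [h1, card_attach r S {v} hr (Finset.singleton_subset_iff.2 hv) (ext S q)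
      (fun x hx _ => by rw [ext_mem S q hx]; exact (q ⟨x, hx⟩).2) ?_, Finset.card_singleton]
    · rw [← pow_add]
      by_cases h2 : Fintype.card V - S.card = 1
      · rw [h2]
        simp
      · congr 1
        omega
    · intro x hx
      obtain ⟨m, hm1, hm2⟩ := exists_first hq ⟨x, hx⟩
      refine ⟨m, ?_, fun j hj => ⟨?_, ?_⟩⟩
      · rw [show x = ((⟨x, hx⟩ : S) : V) from rfl, ext_iterate, hm1]
        exact Finset.mem_singleton_self v
      · rw [show x = ((⟨x, hx⟩ : S) : V) from rfl, ext_iterate]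
        exact (q^[j] ⟨x, hx⟩).2
      · rw [show x = ((⟨x, hx⟩ : S) : V) from rfl, ext_iterate, Finset.mem_singleton]
        exact fun h => hm2 j hj (Subtype.ext h)
  rw [Set.ncard_eq_toFinset_card']
  rw [Finset.card_eq_sum_card_fiberwise (f := rst S ⟨v, hv⟩) (t := (PF (⟨v, hv⟩ : S)).toFinset)]
  · rw [← hQ, Set.ncard_eq_toFinset_card' (PF (⟨v, hv⟩ : S)), ← smul_eq_mul, ← Finset.sum_const]
    refine Finset.sum_congr rfl fun q hq => ?_
    rw [← hfib q (Set.mem_toFinset.1 hq), Set.ncard_eq_toFinset_card']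
    congr 1
    ext p
    simp only [Finset.mem_filter, Set.mem_toFinset, Set.mem_setOf_eq]
  · intro p hp
    rw [Finset.mem_coe, Set.mem_toFinset] at hp ⊢
    exact rst_mem hv hp.2

/-- the binomial coefficient `b(n,k) = C(n,k) k^k (n-k)^(n-k) / n^n` -/
noncomputable def bnk (n k : ℕ) : ℝ :=
  (n.choose k : ℝ) * (k : ℝ) ^ k * ((n - k : ℕ) : ℝ) ^ (n - k) / (n : ℝ) ^ n

namespace FringeAux

/-- the trees with exactly `k` vertices below a given vertex -/
theorem card_sz {V : Type} [Fintype V] [DecidableEq V] (r v : V) (hv : v ≠ r) (k : ℕ)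
    (hk : 1 ≤ k) :
    {p : V → V | p ∈ PF r ∧ sz p v = k}.ncard =
      (Fintype.card V - 2).choose (k - 1) *
        (k ^ (k - 2) * (Fintype.card V - k) ^ (Fintype.card V - k - 1)) := by
  classical
  set U : Finset V := (Finset.univ.erase r).erase v with hU
  have hUc : U.card = Fintype.card V - 2 := by
    rw [hU, Finset.card_erase_of_mem (Finset.mem_erase.2 ⟨hv, Finset.mem_univ _⟩),
      Finset.card_erase_of_mem (Finset.mem_univ _), Finset.card_univ]
    omega
  set F : (V → V) → Finset V := fun p => (below p v).toFinset.erase v with hF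
  have hfib : ∀ S ∈ U.powersetCard (k - 1),
      {p : V → V | (p ∈ PF r ∧ sz p v = k) ∧ F p = S}.ncard =
        k ^ (k - 2) * (Fintype.card V - k) ^ (Fintype.card V - k - 1) := by
    intro S hS
    obtain ⟨hS1, hS2⟩ := Finset.mem_powersetCard.1 hS
    have hvS : v ∉ S := fun h => (Finset.mem_erase.1 (hS1 h)).1 rfl
    have hrS : r ∉ S := fun h => (Finset.mem_erase.1 (Finset.mem_erase.1 (hS1 h)).2).1 rfl
    have hc : (insert v S).card = k := by
      rw [Finset.card_insert_of_notMem hvS, hS2]
      omega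
    have h1 : {p : V → V | (p ∈ PF r ∧ sz p v = k) ∧ F p = S} =
        {p : V → V | p ∈ PF r ∧ below p v = ((insert v S : Finset V) : Set V)} := by
      ext p
      simp only [Set.mem_setOf_eq]
      constructor
      · rintro ⟨⟨hp, _⟩, h⟩
        refine ⟨hp, ?_⟩
        rw [← h, hF]
        simp only
        rw [Finset.insert_erase (Set.mem_toFinset.2 (self_mem_below p v)), Set.coe_toFinset]
      · rintro ⟨hp, h⟩
        refine ⟨⟨hp, ?_⟩, ?_⟩
        · rw [sz, h, Set.ncard_coe_finset, hc]
        · rw [hF]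
          simp only
          have h2 : (below p v).toFinset = insert v S := by
            ext x
            rw [Set.mem_toFinset, h, Finset.mem_coe]
          rw [h2, Finset.erase_insert hvS]
    rw [h1, card_below_eq r v (insert v S) (by
      rw [Finset.mem_insert]
      rintro (h | h)
      · exact hv h.symm
      · exact hrS h) (Finset.mem_insert_self _ _), hc]
  rw [Set.ncard_eq_toFinset_card',
    Finset.card_eq_sum_card_fiberwise (f := F) (t := U.powersetCard (k - 1))]
  · rw [← hUc, ← Finset.card_powersetCard, ← smul_eq_mul, ← Finset.sum_const]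
    refine Finset.sum_congr rfl fun S hS => ?_
    rw [← hfib S hS, Set.ncard_eq_toFinset_card']
    congr 1
    ext p
    simp only [Finset.mem_filter, Set.mem_toFinset, Set.mem_setOf_eq]
  · intro p hp
    rw [Finset.mem_coe, Set.mem_toFinset] at hp
    obtain ⟨hp1, hp2⟩ := hp
    rw [Finset.mem_coe, Finset.mem_powersetCard, hF]
    simp only
    constructor
    · intro x hx
      obtain ⟨hx1, hx2⟩ := Finset.mem_erase.1 hx
      rw [Set.mem_toFinset] at hx2
      rw [hU, Finset.mem_erase, Finset.mem_erase]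
      refine ⟨hx1, fun h => ?_, Finset.mem_univ _⟩
      rw [h] at hx2
      exact root_notMem_below hp1 hv hx2
    · rw [Finset.card_erase_of_mem (Set.mem_toFinset.2 (self_mem_below p v)),
        ← Set.ncard_eq_toFinset_card']
      rw [sz] at hp2
      rw [hp2]

theorem arith (n k : ℕ) (hk : 1 ≤ k) (hkn : k + 1 ≤ n) :
    (((n - 1) * ((n - 2).choose (k - 1) * (k ^ (k - 2) * (n - k) ^ (n - k - 1))) : ℕ) : ℝ) =
      (n : ℝ) ^ (n - 2) * ((n : ℝ) / k) * bnk n k := by
  obtain ⟨m, rfl⟩ : ∃ m, n = m + 2 := ⟨n - 2, by omega⟩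
  obtain ⟨j, rfl⟩ : ∃ j, k = j + 1 := ⟨k - 1, by omega⟩
  obtain ⟨l, hl⟩ : ∃ l, m + 2 - (j + 1) = l + 1 := ⟨m - j, by omega⟩
  have e1 : m + 2 - 1 = m + 1 := rfl
  have e2 : m + 2 - 2 = m := rfl
  have e3 : j + 1 - 1 = j := rfl
  have e4 : l + 1 - 1 = l := rfl
  have h1 : (m + 1) * m.choose j = (m + 1).choose (j + 1) * (j + 1) := Nat.add_one_mul_choose_eq m j
  have h2 : (m + 1).choose (j + 1) * (m + 2) = (m + 2).choose (j + 1) * (l + 1) := by
    have := Nat.choose_mul_succ_eq (m + 1) (j + 1)
    rw [show m + 1 + 1 = m + 2 by rfl, hl] at this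
    exact this
  have h3 : (j + 1) * (j + 1) ^ (j + 1 - 2) = (j + 1) ^ j := by
    cases j with
    | zero => simp
    | succ i =>
      rw [show i + 1 + 1 - 2 = i by omega, ← pow_succ']
  rw [bnk, e1, e2, e3, hl, e4]
  have hn : ((m + 2 : ℕ) : ℝ) ≠ 0 := by positivity
  have hk' : ((j + 1 : ℕ) : ℝ) ≠ 0 := by positivity
  have H1 : ((m + 1 : ℕ) : ℝ) * (m.choose j : ℝ) = ((m + 1).choose (j + 1) : ℝ) * ((j + 1 : ℕ) : ℝ) := by
    exact_mod_cast h1
  have H2 : ((m + 1).choose (j + 1) : ℝ) * ((m + 2 : ℕ) : ℝ) =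
      ((m + 2).choose (j + 1) : ℝ) * ((l + 1 : ℕ) : ℝ) := by exact_mod_cast h2
  have H3 : ((j + 1 : ℕ) : ℝ) * ((j + 1 : ℕ) : ℝ) ^ (j + 1 - 2) = ((j + 1 : ℕ) : ℝ) ^ j := by
    exact_mod_cast h3
  rw [Nat.cast_mul, Nat.cast_mul, Nat.cast_mul, Nat.cast_pow, Nat.cast_pow]
  set N : ℝ := ((m + 2 : ℕ) : ℝ) with hN
  set J : ℝ := ((j + 1 : ℕ) : ℝ) with hJ
  set Lr : ℝ := ((l + 1 : ℕ) : ℝ) with hL
  have hR : N ^ m * (N / J) * (((m + 2).choose (j + 1) : ℝ) * J ^ (j + 1) * Lr ^ (l + 1) /
      N ^ (m + 2)) = ((m + 2).choose (j + 1) : ℝ) * Lr * (J ^ j * Lr ^ l) / N := by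
    field_simp
    ring
  rw [hR, eq_div_iff hn, ← H2, ← H3]
  linear_combination (N * J ^ (j + 1 - 2) * Lr ^ l) * H1

end FringeAux

/-- the total number of pairs (tree, vertex with exactly `k` vertices below it) -/
theorem sum_sz_eq {V : Type} [Fintype V] [DecidableEq V] (r : V) (k : ℕ) (hk : 1 ≤ k)
    (hkn : k + 1 ≤ Fintype.card V) :
    ((∑ v ∈ Finset.univ.erase r, {p : V → V | p ∈ PF r ∧ sz p v = k}.ncard : ℕ) : ℝ) =
      (Fintype.card V : ℝ) ^ (Fintype.card V - 2) * ((Fintype.card V : ℝ) / k) *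
        bnk (Fintype.card V) k := by
  rw [← arith (Fintype.card V) k hk hkn]
  congr 1
  rw [Finset.sum_congr rfl fun v hv => card_sz r v (Finset.ne_of_mem_erase hv) k hk,
    Finset.sum_const, Finset.card_erase_of_mem (Finset.mem_univ _), Finset.card_univ, smul_eq_mul]

end Pool.Agent.GX
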