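import Pool.Agent.GX.Defs

/-! # TT09: the limits of the two moments -/

set_option autoImplicit false

open Filter Topology

namespace Pool.Agent.GX

namespace LimitsAux

theorem tendsto_sub_div (j : ℕ) :
    Tendsto (fun n : ℕ => ((n - j : ℕ) : ℝ) / (n : ℝ)) atTop (𝓝 1) := by
  have h1 : Tendsto (fun n : ℕ => 1 - (j : ℝ) / (n : ℝ)) atTop (𝓝 (1 - 0)) :=
    tendsto_const_nhds.sub (tendsto_const_div_atTop_nhds_zero_nat (j : ℝ))
  rw [sub_zero] at h1
  refine h1.congr' ?_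
  filter_upwards [eventually_ge_atTop (j + 1)] with n hn
  have hn0 : (n : ℝ) ≠ 0 := by
    have : n ≠ 0 := by omega
    exact_mod_cast this
  rw [Nat.cast_sub (by omega)]
  field_simp

theorem tendsto_desc (j : ℕ) :
    Tendsto (fun n : ℕ => ((n - 1).descFactorial j : ℝ) / (n : ℝ) ^ j) atTop (𝓝 1) := by
  induction j with
  | zero => simp
  | succ j ih =>
    have h1 := (tendsto_sub_div (j + 1)).mul ih
    rw [one_mul] at h1
    refine h1.congr' ?_
    filter_upwards [eventually_ge_atTop (j + 2)] with n hn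
    have hn0 : (n : ℝ) ≠ 0 := by
      have : n ≠ 0 := by omega
      exact_mod_cast this
    rw [Nat.descFactorial_succ, show n - 1 - j = n - (j + 1) by omega]
    push_cast
    rw [pow_succ]
    field_simp

theorem tendsto_pow (j c : ℕ) :
    Tendsto (fun n : ℕ => (((n - j : ℕ) : ℝ) / (n : ℝ)) ^ (n - j - c)) atTop
      (𝓝 (Real.exp (-(j : ℝ)))) := by
  have h1 : Tendsto (fun n : ℕ => (1 + (-(j : ℝ)) / (n : ℝ)) ^ n) atTop
      (𝓝 (Real.exp (-(j : ℝ)))) := Real.tendsto_one_add_div_pow_exp _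
  have h2 : Tendsto (fun n : ℕ => (((n - j : ℕ) : ℝ) / (n : ℝ)) ^ (j + c)) atTop (𝓝 (1 ^ (j + c))) :=
    (tendsto_sub_div j).pow (j + c)
  rw [one_pow] at h2
  have h3 := h1.div h2 one_ne_zero
  rw [div_one] at h3
  refine h3.congr' ?_
  filter_upwards [eventually_ge_atTop (j + c + 1)] with n hn
  have hn0 : (n : ℝ) ≠ 0 := by
    have : n ≠ 0 := by omega
    exact_mod_cast this
  have hj : ((n - j : ℕ) : ℝ) ≠ 0 := by
    have : n - j ≠ 0 := by omega
    exact_mod_cast this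
  have h4 : 1 + (-(j : ℝ)) / (n : ℝ) = ((n - j : ℕ) : ℝ) / (n : ℝ) := by
    rw [Nat.cast_sub (by omega)]
    field_simp
    ring
  have h5 : ((n - j : ℕ) : ℝ) / (n : ℝ) ≠ 0 := div_ne_zero hj hn0
  simp only [Pi.div_apply]
  rw [h4, div_eq_iff (pow_ne_zero _ h5), ← pow_add]
  congr 1
  omega

end LimitsAux

theorem tendsto_first (k : ℕ) : Tendsto (fun n : ℕ =>
    (((n - 1).descFactorial k * (n - k) ^ (n - k - 1) : ℕ) : ℝ) / ((n : ℝ) * (n : ℝ) ^ (n - 2)))
    atTop (𝓝 (Real.exp (-(k : ℝ)))) := by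
  have h1 := (LimitsAux.tendsto_desc k).mul (LimitsAux.tendsto_pow k 1)
  rw [one_mul] at h1
  refine h1.congr' ?_
  filter_upwards [eventually_ge_atTop (k + 2)] with n hn
  have hn0 : (n : ℝ) ≠ 0 := by
    have : n ≠ 0 := by omega
    exact_mod_cast this
  push_cast
  rw [div_pow, div_mul_div_comm, ← pow_add, show k + (n - k - 1) = 1 + (n - 2) by omega, pow_add,
    pow_one]

theorem tendsto_second (k : ℕ) : Tendsto (fun n : ℕ =>
    (((n - 1).descFactorial (2 * k) * (n - 2 * k) ^ (n - 2 * k) : ℕ) : ℝ) /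
      ((n : ℝ) ^ 2 * (n : ℝ) ^ (n - 2)))
    atTop (𝓝 (Real.exp (-(2 * k : ℝ)))) := by
  have h1 := (LimitsAux.tendsto_desc (2 * k)).mul (LimitsAux.tendsto_pow (2 * k) 0)
  rw [one_mul] at h1
  have h0 : (((2 * k : ℕ) : ℝ)) = 2 * (k : ℝ) := by push_cast; ring
  rw [h0] at h1
  refine h1.congr' ?_
  filter_upwards [eventually_ge_atTop (2 * k + 2)] with n hn
  have hn0 : (n : ℝ) ≠ 0 := by
    have : n ≠ 0 := by omega
    exact_mod_cast this
  push_cast
  rw [div_pow, div_mul_div_comm, ← pow_add, ← pow_add, Nat.sub_zero,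
    show 2 * k + (n - 2 * k) = 2 + (n - 2) by omega]

end Pool.Agent.GX
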