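import Pool.Agent.GX.Attach

/-! # TT08: first and second moment of the number of pendant copies -/

set_option autoImplicit false

open scoped BigOperators

namespace Pool.Agent.GX

open Pool.Agent.WT.Trees (PF pGraph)

/-- the number of pendant copies -/
noncomputable def NP {V : Type} {k : ℕ} [NeZero k] (r : V) (p : V → V) (q : Fin k → Fin k) : ℕ :=
  {φ : Fin k → V | Pend r p q φ}.ncard

namespace PendCountAux

/-- generalised pendant copy: index type `ι`, inner map `Q`, tops `t` -/
structure PG {V ι : Type} (r : V) (Q : ι → ι) (t : Finset ι) (p : V → V) (Φ : ι → V) :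
    Prop where
  inj : Function.Injective Φ
  root : ∀ x, Φ x ≠ r
  par : ∀ x, x ∉ t → p (Φ x) = Φ (Q x)
  top : ∀ x, x ∈ t → p (Φ x) ∉ Set.range Φ
  closed : ∀ u, u ∉ Set.range Φ → p u ∉ Set.range Φ

theorem card_gen {V ι : Type} [Fintype V] [Fintype ι] (r : V) (Q : ι → ι)
    (t : Finset ι) (hQ : ∀ x, ∃ m, Q^[m] x ∈ t) (Φ : ι → V) (hinj : Function.Injective Φ)
    (hroot : ∀ x, Φ x ≠ r) :
    {p : V → V | p ∈ PF r ∧ PG r Q t p Φ}.ncard =
      (Fintype.card V - Fintype.card ι) ^ (Fintype.card V - Fintype.card ι - 2) *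
        (Fintype.card V - Fintype.card ι) ^ t.card := by
  classical
  set S : Finset V := Finset.univ.image Φ with hS
  set T : Finset V := t.image Φ with hT
  have hmS : ∀ u, u ∈ S ↔ u ∈ Set.range Φ := by
    intro u
    simp [hS]
  have hmT : ∀ x, Φ x ∈ T ↔ x ∈ t := by
    intro x
    rw [hT, Finset.mem_image]
    constructor
    · rintro ⟨y, hy, hyx⟩
      rwa [← hinj hyx]
    · intro hx
      exact ⟨x, hx, rfl⟩
  have hcS : S.card = Fintype.card ι := by
    rw [hS, Finset.card_image_of_injective _ hinj, Finset.card_univ]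
  have hcT : T.card = t.card := by
    rw [hT, Finset.card_image_of_injective _ hinj]
  set qq : V → V := Function.extend Φ (Φ ∘ Q) id with hqq
  have hqe : ∀ x, qq (Φ x) = Φ (Q x) := by
    intro x
    rw [hqq, hinj.extend_apply]
    rfl
  have hqi : ∀ (m : ℕ) (x : ι), qq^[m] (Φ x) = Φ (Q^[m] x) := by
    intro m
    induction m with
    | zero => intro x; rfl
    | succ m ih =>
      intro x
      rw [Function.iterate_succ_apply, Function.iterate_succ_apply, hqe, ih]
  have hr : r ∉ S := by
    rw [hmS]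
    rintro ⟨x, hx⟩
    exact hroot x hx
  have htops : T ⊆ S := Finset.image_subset_image (Finset.subset_univ _)
  have h1 : ∀ x ∈ S, x ∉ T → qq x ∈ S := by
    intro x hx _
    rw [hmS] at hx
    obtain ⟨y, rfl⟩ := hx
    rw [hqe, hmS]
    exact ⟨_, rfl⟩
  have h2 : ∀ x ∈ S, ∃ m, qq^[m] x ∈ T ∧ ∀ j < m, qq^[j] x ∈ S ∧ qq^[j] x ∉ T := by
    intro x hx
    rw [hmS] at hx
    obtain ⟨y, rfl⟩ := hx
    refine ⟨Nat.find (hQ y), ?_, ?_⟩
    · rw [hqi, hmT]
      exact Nat.find_spec (hQ y)
    · intro j hj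
      rw [hqi, hmT, hmS]
      exact ⟨⟨_, rfl⟩, Nat.find_min (hQ y) hj⟩
  have h3 := card_attach r S T hr htops qq h1 h2
  rw [hcS, hcT] at h3
  rw [← h3]
  congr 1
  ext p
  constructor
  · rintro ⟨hp, hg⟩
    refine ⟨hp, ?_, ?_, ?_⟩
    · intro x hx hxT
      rw [hmS] at hx
      obtain ⟨y, rfl⟩ := hx
      rw [hmT] at hxT
      rw [hg.par y hxT, hqe]
    · intro x hx
      have hxS := htops hx
      rw [hmS] at hxS
      obtain ⟨y, rfl⟩ := hxS
      rw [hmT] at hx
      rw [hmS]
      exact hg.top y hx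
    · intro x hx
      rw [hmS] at hx ⊢
      exact hg.closed x hx
  · rintro ⟨hp, ha, hb, hc⟩
    refine ⟨hp, ⟨hinj, hroot, ?_, ?_, ?_⟩⟩
    · intro x hx
      rw [← hqe]
      refine ha (Φ x) ?_ ?_
      · rw [hmS]
        exact ⟨_, rfl⟩
      · rwa [hmT]
    · intro x hx
      rw [← hmS]
      refine hb (Φ x) ?_
      rwa [hmT]
    · intro u hu
      rw [← hmS] at hu ⊢
      exact hc u hu

/-- number of injective maps avoiding `r` -/
theorem card_inj {V ι : Type} [Fintype V] [Fintype ι] (r : V) :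
    {Φ : ι → V | Function.Injective Φ ∧ ∀ x, Φ x ≠ r}.ncard =
      (Fintype.card V - 1).descFactorial (Fintype.card ι) := by
  classical
  have h1 : Fintype.card {v : V // v ≠ r} = Fintype.card V - 1 := by
    rw [Fintype.card_subtype_compl, Fintype.card_subtype_eq]
  rw [← h1, ← Fintype.card_embedding_eq, ← Nat.card_coe_set_eq, ← Nat.card_eq_fintype_card]
  refine Nat.card_congr ⟨fun Φ => ⟨fun x => ⟨Φ.1 x, Φ.2.2 x⟩, fun x y h => Φ.2.1 (congrArg Subtype.val h)⟩,
    fun e => ⟨fun x => (e x).1, fun x y h => e.injective (Subtype.ext h), fun x => (e x).2⟩, ?_, ?_⟩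
  · intro Φ
    rfl
  · intro e
    rfl

theorem sum_PG {V ι : Type} [Fintype V] [Fintype ι] (r : V) (Q : ι → ι)
    (t : Finset ι) (hQ : ∀ x, ∃ m, Q^[m] x ∈ t) :
    ∑ p ∈ Set.Finite.toFinset (Set.toFinite (PF r)), {Φ : ι → V | PG r Q t p Φ}.ncard =
      (Fintype.card V - 1).descFactorial (Fintype.card ι) *
      ((Fintype.card V - Fintype.card ι) ^ (Fintype.card V - Fintype.card ι - 2) *
        (Fintype.card V - Fintype.card ι) ^ t.card) := by
  classical
  set A := Set.Finite.toFinset (Set.toFinite (PF r)) with hA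
  have hmA : ∀ p, p ∈ A ↔ p ∈ PF r := by
    intro p
    rw [hA, Set.Finite.mem_toFinset]
  have h1 : ∀ p ∈ A, {Φ : ι → V | PG r Q t p Φ}.ncard =
      ((Finset.univ : Finset (ι → V)).bipartiteAbove (fun p Φ => PG r Q t p Φ) p).card := by
    intro p _
    rw [← Set.ncard_coe_finset]
    congr 1
    ext Φ
    rw [Finset.mem_coe, Finset.mem_bipartiteAbove]
    simp
  rw [Finset.sum_congr rfl h1, Finset.sum_card_bipartiteAbove_eq_sum_card_bipartiteBelow]
  have h2 : ∀ Φ : ι → V, (A.bipartiteBelow (fun p Φ => PG r Q t p Φ) Φ).card =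
      if (Function.Injective Φ ∧ ∀ x, Φ x ≠ r) then
      ((Fintype.card V - Fintype.card ι) ^ (Fintype.card V - Fintype.card ι - 2) *
        (Fintype.card V - Fintype.card ι) ^ t.card) else 0 := by
    intro Φ
    split_ifs with h
    · rw [← card_gen r Q t hQ Φ h.1 h.2, ← Set.ncard_coe_finset]
      congr 1
      ext p
      rw [Finset.mem_coe, Finset.mem_bipartiteBelow, hmA]
      rfl
    · rw [Finset.card_eq_zero, Finset.eq_empty_iff_forall_notMem]
      intro p hp
      rw [Finset.mem_bipartiteBelow] at hp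
      exact h ⟨hp.2.inj, hp.2.root⟩
  rw [Finset.sum_congr rfl (fun Φ _ => h2 Φ), ← Finset.sum_filter, Finset.sum_const, smul_eq_mul]
  congr 1
  rw [← card_inj r (ι := ι), ← Set.ncard_coe_finset]
  congr 1
  ext Φ
  simp

section basic

variable {V : Type} {k : ℕ} [NeZero k] {r : V} {p : V → V} {q : Fin k → Fin k} {φ ψ : Fin k → V}

theorem closed_iter (h : Pend r p q φ) (m : ℕ) : ∀ u, p^[m] u ∈ Set.range φ → u ∈ Set.range φ := by
  induction m with
  | zero => intro u hu; exact hu
  | succ m ih =>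
    intro u hu
    rw [Function.iterate_succ_apply] at hu
    exact h.closed u (ih (p u) hu)

theorem reach (hq : q ∈ PF (0 : Fin k)) (h : Pend r p q φ) (x : Fin k) :
    ∃ m, p^[m] (φ x) = φ 0 := by
  have key : ∀ (m : ℕ) (x : Fin k), q^[m] x = 0 → ∃ m, p^[m] (φ x) = φ 0 := by
    intro m
    induction m with
    | zero =>
      intro x hx
      exact ⟨0, congrArg φ hx⟩
    | succ m ih =>
      intro x hx
      by_cases h0 : x = 0
      · exact ⟨0, congrArg φ h0⟩
      · rw [Function.iterate_succ_apply] at hx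
        obtain ⟨m', hm'⟩ := ih (q x) hx
        refine ⟨m' + 1, ?_⟩
        rw [Function.iterate_succ_apply, h.par x h0, hm']
  obtain ⟨m, hm⟩ := hq.2 x
  exact key m x hm

theorem range_subset (hq : q ∈ PF (0 : Fin k)) (hφ : Pend r p q φ) (hψ : Pend r p q ψ) (j : ℕ)
    (hj : p^[j] (φ 0) = ψ 0) : Set.range φ ⊆ Set.range ψ := by
  rintro u ⟨x, rfl⟩
  obtain ⟨m, hm⟩ := reach hq hφ x
  refine closed_iter hψ (j + m) _ ?_
  rw [Function.iterate_add_apply, hm, hj]
  exact ⟨0, rfl⟩

theorem range_eq_of_subset (hφ : Pend r p q φ) (hψ : Pend r p q ψ)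
    (h : Set.range φ ⊆ Set.range ψ) : Set.range φ = Set.range ψ := by
  refine Set.eq_of_subset_of_ncard_le h ?_ (Set.finite_range ψ)
  rw [← Set.image_univ, ← Set.image_univ, Set.ncard_image_of_injective _ hφ.inj,
    Set.ncard_image_of_injective _ hψ.inj]

theorem range_eq_or_disjoint (hq : q ∈ PF (0 : Fin k)) (hφ : Pend r p q φ) (hψ : Pend r p q ψ) :
    Set.range ψ = Set.range φ ∨ Disjoint (Set.range φ) (Set.range ψ) := by
  by_cases h : Disjoint (Set.range φ) (Set.range ψ)
  · exact Or.inr h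
  left
  rw [Set.not_disjoint_iff] at h
  obtain ⟨u, ⟨x, hx⟩, ⟨y, hy⟩⟩ := h
  obtain ⟨a, ha⟩ := reach hq hφ x
  obtain ⟨b, hb⟩ := reach hq hψ y
  rw [hx] at ha
  rw [hy] at hb
  rcases le_total a b with hab | hab
  · have h1 : p^[b - a] (φ 0) = ψ 0 := by
      rw [← ha, ← Function.iterate_add_apply, Nat.sub_add_cancel hab, hb]
    exact (range_eq_of_subset hφ hψ (range_subset hq hφ hψ _ h1)).symm
  · have h1 : p^[a - b] (ψ 0) = φ 0 := by
      rw [← hb, ← Function.iterate_add_apply, Nat.sub_add_cancel hab, ha]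
    exact range_eq_of_subset hψ hφ (range_subset hq hψ hφ _ h1)

/-- at most `k!` pendant copies have the same range -/
theorem card_same_range [Finite V] (r : V) (p : V → V) (q : Fin k → Fin k) (φ : Fin k → V) :
    {ψ : Fin k → V | Pend r p q ψ ∧ Set.range ψ = Set.range φ}.ncard ≤ k.factorial := by
  classical
  have h1 : {ψ : Fin k → V | Pend r p q ψ ∧ Set.range ψ = Set.range φ} ⊆
      (fun σ : Equiv.Perm (Fin k) => φ ∘ σ) '' Set.univ := by
    rintro ψ ⟨hψ, he⟩
    have h2 : ∀ x, ∃ y, φ y = ψ x := by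
      intro x
      have : ψ x ∈ Set.range φ := he ▸ ⟨x, rfl⟩
      exact this
    choose σ hσ using h2
    have hinj : Function.Injective σ := by
      intro x y hxy
      apply hψ.inj
      rw [← hσ, ← hσ, hxy]
    refine ⟨Equiv.ofBijective σ (Finite.injective_iff_bijective.1 hinj), Set.mem_univ _, ?_⟩
    funext x
    exact hσ x
  calc {ψ : Fin k → V | Pend r p q ψ ∧ Set.range ψ = Set.range φ}.ncard
      ≤ ((fun σ : Equiv.Perm (Fin k) => φ ∘ σ) '' Set.univ).ncard :=
        Set.ncard_le_ncard h1 (Set.toFinite _)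
    _ ≤ (Set.univ : Set (Equiv.Perm (Fin k))).ncard := Set.ncard_image_le (Set.toFinite _)
    _ = k.factorial := by
        rw [Set.ncard_univ, Nat.card_eq_fintype_card, Fintype.card_perm, Fintype.card_fin]

theorem pend_iff_PG : Pend r p q φ ↔ PG r q {0} p φ := by
  constructor
  · intro h
    refine ⟨h.inj, h.root, ?_, ?_, ?_⟩
    · intro x hx
      exact h.par x (fun h0 => hx (Finset.mem_singleton.2 h0))
    · intro x hx
      rw [Finset.mem_singleton.1 hx]
      exact h.top
    · intro u hu hpu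
      exact hu (h.closed u hpu)
  · intro h
    refine ⟨h.inj, h.root, ?_, ?_, ?_⟩
    · intro x hx
      exact h.par x (fun h0 => hx (Finset.mem_singleton.1 h0))
    · intro u hpu
      by_contra hu
      exact h.closed u hu hpu
    · exact h.top 0 (Finset.mem_singleton_self 0)

/-- the two tops -/
def tt (k : ℕ) [NeZero k] : Finset (Fin k ⊕ Fin k) := {Sum.inl 0, Sum.inr 0}

theorem tt_card : (tt k).card = 2 := by
  rw [tt, Finset.card_pair]
  exact Sum.inl_ne_inr

theorem pair_PG (hφ : Pend r p q φ) (hψ : Pend r p q ψ)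
    (hd : Disjoint (Set.range φ) (Set.range ψ)) :
    PG r (Sum.map q q) (tt k) p (Sum.elim φ ψ) := by
  have hr : Set.range (Sum.elim φ ψ) = Set.range φ ∪ Set.range ψ := Set.Sum.elim_range φ ψ
  rw [Set.disjoint_left] at hd
  refine ⟨?_, ?_, ?_, ?_, ?_⟩
  · rw [Sum.elim_injective]
    refine ⟨hφ.inj, hψ.inj, ?_⟩
    intro a b hab
    exact hd ⟨a, rfl⟩ ⟨b, hab.symm⟩
  · rintro (x | x)
    · exact hφ.root x
    · exact hψ.root x
  · rintro (x | x) hx
    · refine hφ.par x ?_
      rintro rfl
      exact hx (by simp [tt])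
    · refine hψ.par x ?_
      rintro rfl
      exact hx (by simp [tt])
  · rintro (x | x) hx
    · have h0 : x = 0 := by simpa [tt] using hx
      subst h0
      rw [hr]
      rintro (h | h)
      · exact hφ.top h
      · exact hd ⟨0, rfl⟩ (hψ.closed _ h)
    · have h0 : x = 0 := by simpa [tt] using hx
      subst h0
      rw [hr]
      rintro (h | h)
      · exact hd (hφ.closed _ h) ⟨0, rfl⟩
      · exact hψ.top h
  · intro u hu
    rw [hr] at hu ⊢
    rintro (h | h)
    · exact hu (Or.inl (hφ.closed _ h))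
    · exact hu (Or.inr (hψ.closed _ h))

end basic

theorem iter_sum {k : ℕ} [NeZero k] (q : Fin k → Fin k) (m : ℕ) :
    (∀ x, (Sum.map q q)^[m] (Sum.inl x) = (Sum.inl (q^[m] x) : Fin k ⊕ Fin k)) ∧
    (∀ x, (Sum.map q q)^[m] (Sum.inr x) = (Sum.inr (q^[m] x) : Fin k ⊕ Fin k)) := by
  induction m with
  | zero => exact ⟨fun x => rfl, fun x => rfl⟩
  | succ m ih =>
    refine ⟨fun x => ?_, fun x => ?_⟩
    · rw [Function.iterate_succ_apply, Function.iterate_succ_apply, Sum.map_inl, ih.1]
    · rw [Function.iterate_succ_apply, Function.iterate_succ_apply, Sum.map_inr, ih.2]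

theorem NP_sq_le {V : Type} [Fintype V] {k : ℕ} [NeZero k] (r : V) (p : V → V)
    (q : Fin k → Fin k) (hq : q ∈ PF (0 : Fin k)) :
    (NP r p q) ^ 2 ≤ k.factorial * NP r p q +
      {Φ : Fin k ⊕ Fin k → V | PG r (Sum.map q q) (tt k) p Φ}.ncard := by
  classical
  set A : Finset (Fin k → V) := Finset.univ.filter (fun φ => Pend r p q φ) with hA
  have hmA : ∀ φ, φ ∈ A ↔ Pend r p q φ := by
    intro φ
    simp [hA]
  have hNP : NP r p q = A.card := by
    rw [NP, ← Set.ncard_coe_finset]
    congr 1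
    ext φ
    rw [Finset.mem_coe, hmA]
    rfl
  have h1 : ((A ×ˢ A).filter fun x => Set.range x.2 = Set.range x.1).card ≤
      k.factorial * A.card := by
    rw [Finset.card_eq_sum_card_fiberwise (f := Prod.fst) (t := A)]
    · calc ∑ φ ∈ A, (((A ×ˢ A).filter fun x => Set.range x.2 = Set.range x.1).filter
            fun x => x.1 = φ).card
          ≤ ∑ φ ∈ A, k.factorial := by
            refine Finset.sum_le_sum fun φ hφ => ?_
            refine le_trans ?_ (card_same_range r p q φ)
            rw [← Set.ncard_coe_finset]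
            refine Set.ncard_le_ncard_of_injOn Prod.snd ?_ ?_ (Set.toFinite _)
            · intro x hx
              rw [Finset.mem_coe, Finset.mem_filter, Finset.mem_filter, Finset.mem_product] at hx
              refine ⟨(hmA _).1 hx.1.1.2, ?_⟩
              rw [hx.1.2, hx.2]
            · intro x hx y hy hxy
              rw [Finset.mem_coe, Finset.mem_filter] at hx hy
              exact Prod.ext (hx.2.trans hy.2.symm) hxy
        _ = k.factorial * A.card := by rw [Finset.sum_const, smul_eq_mul, mul_comm]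
    · intro x hx
      have hx' := Finset.mem_coe.1 hx
      rw [Finset.mem_filter, Finset.mem_product] at hx'
      exact hx'.1.1
  have h2 : ((A ×ˢ A).filter fun x => ¬ Set.range x.2 = Set.range x.1).card ≤
      {Φ : Fin k ⊕ Fin k → V | PG r (Sum.map q q) (tt k) p Φ}.ncard := by
    rw [← Set.ncard_coe_finset]
    refine Set.ncard_le_ncard_of_injOn (fun x => Sum.elim x.1 x.2) ?_ ?_ (Set.toFinite _)
    · intro x hx
      rw [Finset.mem_coe, Finset.mem_filter, Finset.mem_product, hmA, hmA] at hx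
      refine pair_PG hx.1.1 hx.1.2 ?_
      rcases range_eq_or_disjoint hq hx.1.1 hx.1.2 with h | h
      · exact absurd h hx.2
      · exact h
    · intro x _ y _ hxy
      have hxy' : Sum.elim x.1 x.2 = Sum.elim y.1 y.2 := hxy
      refine Prod.ext ?_ ?_
      · funext a
        exact congrFun hxy' (Sum.inl a)
      · funext a
        exact congrFun hxy' (Sum.inr a)
  have h3 := Finset.card_filter_add_card_filter_not (s := A ×ˢ A)
    (fun x => Set.range x.2 = Set.range x.1)
  rw [Finset.card_product] at h3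
  rw [hNP, sq]
  omega

end PendCountAux

open PendCountAux

/-- first moment -/
theorem sum_NP {V : Type} [Fintype V] {k : ℕ} [NeZero k] (r : V) (q : Fin k → Fin k)
    (hq : q ∈ PF (0 : Fin k)) (hk : k + 1 ≤ Fintype.card V) :
    ∑ p ∈ Set.Finite.toFinset (Set.toFinite (PF r)), NP r p q =
      (Fintype.card V - 1).descFactorial k *
        (Fintype.card V - k) ^ (Fintype.card V - k - 1) := by
  classical
  have h1 := sum_PG r q {0} (fun x => by
    obtain ⟨m, hm⟩ := hq.2 x
    exact ⟨m, Finset.mem_singleton.2 hm⟩)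
  rw [Fintype.card_fin, Finset.card_singleton, pow_one] at h1
  have h2 : ∀ p ∈ Set.Finite.toFinset (Set.toFinite (PF r)), NP r p q =
      {Φ : Fin k → V | PG r q {0} p Φ}.ncard := by
    intro p _
    rw [NP]
    congr 1
    ext φ
    exact pend_iff_PG
  rw [Finset.sum_congr rfl h2, h1]
  congr 1
  rcases Nat.lt_or_ge (Fintype.card V - k) 2 with h | h
  · have h3 : Fintype.card V - k = 1 := by omega
    rw [h3]
    simp
  · rw [← pow_succ]
    congr 1
    omega

/-- second moment -/
theorem sum_NP_sq {V : Type} [Fintype V] {k : ℕ} [NeZero k] (r : V) (q : Fin k → Fin k)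
    (hq : q ∈ PF (0 : Fin k)) (hk : 2 * k + 1 ≤ Fintype.card V) :
    ∑ p ∈ Set.Finite.toFinset (Set.toFinite (PF r)), (NP r p q) ^ 2 ≤
      k.factorial * ∑ p ∈ Set.Finite.toFinset (Set.toFinite (PF r)), NP r p q +
      (Fintype.card V - 1).descFactorial (2 * k) *
        (Fintype.card V - 2 * k) ^ (Fintype.card V - 2 * k) := by
  classical
  have h1 := sum_PG r (Sum.map q q) (tt k) (fun x => by
    rcases x with x | x
    · obtain ⟨m, hm⟩ := hq.2 x
      refine ⟨m, ?_⟩
      rw [(iter_sum q m).1, hm]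
      simp [tt]
    · obtain ⟨m, hm⟩ := hq.2 x
      refine ⟨m, ?_⟩
      rw [(iter_sum q m).2, hm]
      simp [tt])
  have hc : Fintype.card (Fin k ⊕ Fin k) = 2 * k := by
    rw [Fintype.card_sum, Fintype.card_fin]
    ring
  rw [hc, tt_card] at h1
  calc ∑ p ∈ Set.Finite.toFinset (Set.toFinite (PF r)), (NP r p q) ^ 2
      ≤ ∑ p ∈ Set.Finite.toFinset (Set.toFinite (PF r)), (k.factorial * NP r p q +
        {Φ : Fin k ⊕ Fin k → V | PG r (Sum.map q q) (tt k) p Φ}.ncard) :=
        Finset.sum_le_sum fun p _ => NP_sq_le r p q hq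
    _ = k.factorial * ∑ p ∈ Set.Finite.toFinset (Set.toFinite (PF r)), NP r p q +
        (Fintype.card V - 1).descFactorial (2 * k) *
        ((Fintype.card V - 2 * k) ^ (Fintype.card V - 2 * k - 2) *
          (Fintype.card V - 2 * k) ^ 2) := by
        rw [Finset.sum_add_distrib, ← Finset.mul_sum, h1]
    _ ≤ _ := by
        refine Nat.add_le_add_left (Nat.mul_le_mul_left _ ?_) _
        rcases Nat.lt_or_ge (Fintype.card V - 2 * k) 2 with h | h
        · have h3 : Fintype.card V - 2 * k = 1 := by omega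
          rw [h3]
          simp
        · rw [← pow_add]
          refine Nat.pow_le_pow_right (by omega) ?_
          omega

end Pool.Agent.GX
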