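import Pool.Agent.GX.PendCount
import Pool.Agent.GX.Limits

/-! # TT10: almost all trees have linearly many pendant copies of a given rooted tree -/

set_option autoImplicit false

open scoped BigOperators
open Filter Topology

namespace Pool.Agent.GX

open Pool.Agent.WT.Trees (PF pGraph)

namespace PendManyAux

/-- the error term of the second moment method tends to zero -/
theorem err_tendsto {X Y : ℕ → ℝ} {c K : ℝ} (hX : Tendsto X atTop (𝓝 c))
    (hY : Tendsto Y atTop (𝓝 (c ^ 2))) :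
    Tendsto (fun n : ℕ => K * (X n * (n : ℝ)⁻¹) + Y n - 2 * c * X n + c ^ 2) atTop (𝓝 0) := by
  have h0 : Tendsto (fun n : ℕ => (n : ℝ)⁻¹) atTop (𝓝 0) := tendsto_inv_atTop_nhds_zero_nat
  have h1 := ((((hX.mul h0).const_mul K).add hY).sub (hX.const_mul (2 * c))).add
    (tendsto_const_nhds (x := c ^ 2))
  have h2 : K * (c * 0) + c ^ 2 - 2 * c * c + c ^ 2 = 0 := by ring
  rw [h2] at h1
  exact h1

/-- Chebyshev's inequality for finite sums -/
theorem cheb {ι : Type} (P : Finset ι) (f : ι → ℝ) (t : ℝ) (ht : 0 ≤ t) (q : ι → Prop)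
    [DecidablePred q] (hq : ∀ p ∈ P, q p → f p < t / 2) :
    ((P.filter q).card : ℝ) * (t ^ 2 / 4) ≤
      ∑ p ∈ P, f p ^ 2 - 2 * t * ∑ p ∈ P, f p + t ^ 2 * P.card := by
  have h1 : ∑ p ∈ P, (f p - t) ^ 2 = ∑ p ∈ P, f p ^ 2 - 2 * t * ∑ p ∈ P, f p + t ^ 2 * P.card := by
    have h2 : ∀ p ∈ P, (f p - t) ^ 2 = f p ^ 2 - 2 * t * f p + t ^ 2 := fun p _ => by ring
    rw [Finset.sum_congr rfl h2, Finset.sum_add_distrib, Finset.sum_sub_distrib, ← Finset.mul_sum,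
      Finset.sum_const, nsmul_eq_mul]
    ring
  rw [← h1]
  calc ((P.filter q).card : ℝ) * (t ^ 2 / 4) = ∑ p ∈ P.filter q, (t ^ 2 / 4) := by
        rw [Finset.sum_const, nsmul_eq_mul]
    _ ≤ ∑ p ∈ P.filter q, (f p - t) ^ 2 := by
        refine Finset.sum_le_sum fun p hp => ?_
        have h3 := Finset.mem_filter.1 hp
        have h4 := hq p h3.1 h3.2
        nlinarith [sq_nonneg (f p - t / 2)]
    _ ≤ ∑ p ∈ P, (f p - t) ^ 2 :=
        Finset.sum_le_sum_of_subset_of_nonneg (Finset.filter_subset _ _) fun p _ _ => sq_nonneg _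

end PendManyAux

open PendManyAux

theorem pend_many {k : ℕ} [NeZero k] (q : Fin k → Fin k) (hq : q ∈ PF (0 : Fin k)) (η : ℝ)
    (hη : 0 < η) :
    ∃ n0 : ℕ, ∀ (V : Type) [Fintype V] (r : V), n0 ≤ Fintype.card V →
      ({p : V → V | p ∈ PF r ∧
        (NP r p q : ℝ) < Real.exp (-(k : ℝ)) / 2 * (Fintype.card V : ℝ)}.ncard : ℝ) ≤
        η * ((PF r).ncard : ℝ) := by
  classical
  have hX := tendsto_first k
  have hY := tendsto_second k
  have hc2 : Real.exp (-(2 * k : ℝ)) = Real.exp (-(k : ℝ)) ^ 2 := by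
    rw [← Real.exp_nat_mul]
    congr 1
    push_cast
    ring
  rw [hc2] at hY
  have hc0 : 0 < Real.exp (-(k : ℝ)) := Real.exp_pos _
  set c := Real.exp (-(k : ℝ)) with hc
  have hE := err_tendsto (K := (k.factorial : ℝ)) hX hY
  have hpos : 0 < η * c ^ 2 / 4 := by positivity
  obtain ⟨n0, h0⟩ := eventually_atTop.1 (hE.eventually_lt_const hpos)
  refine ⟨max n0 (2 * k + 1), fun V _ r hn => ?_⟩
  have hn0 : n0 ≤ Fintype.card V := le_trans (le_max_left _ _) hn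
  have hk2 : 2 * k + 1 ≤ Fintype.card V := le_trans (le_max_right _ _) hn
  have hk1 : k + 1 ≤ Fintype.card V := by omega
  have hlt := h0 (Fintype.card V) hn0
  have hM1 := sum_NP r q hq hk1
  have hM2 := sum_NP_sq r q hq hk2
  have hcard := card_PF r
  rw [Set.ncard_eq_toFinset_card (PF r) (Set.toFinite (PF r))] at hcard ⊢
  set P := Set.Finite.toFinset (Set.toFinite (PF r)) with hP
  have hset : {p : V → V | p ∈ PF r ∧
      (NP r p q : ℝ) < c / 2 * (Fintype.card V : ℝ)} =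
      ((P.filter fun p => (NP r p q : ℝ) < c / 2 * (Fintype.card V : ℝ) : Finset (V → V)) :
        Set (V → V)) := by
    ext p
    simp [hP]
  rw [hset, Set.ncard_coe_finset]
  set n : ℕ := Fintype.card V with hnn
  have hnpos : (0 : ℝ) < n := by
    have : 0 < n := by omega
    exact_mod_cast this
  have hNpos : (0 : ℝ) < (n : ℝ) ^ (n - 2) := by positivity
  have hN : (P.card : ℝ) = (n : ℝ) ^ (n - 2) := by
    rw [hcard]
    push_cast
    ring
  set D1 : ℕ := (n - 1).descFactorial k * (n - k) ^ (n - k - 1) with hD1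
  set D2 : ℕ := (n - 1).descFactorial (2 * k) * (n - 2 * k) ^ (n - 2 * k) with hD2
  have hX1 : ((D1 : ℕ) : ℝ) = (D1 : ℝ) / ((n : ℝ) * (n : ℝ) ^ (n - 2)) * ((n : ℝ) * (n : ℝ) ^ (n - 2)) := by
    rw [div_mul_cancel₀]
    positivity
  have hY1 : ((D2 : ℕ) : ℝ) = (D2 : ℝ) / ((n : ℝ) ^ 2 * (n : ℝ) ^ (n - 2)) *
      ((n : ℝ) ^ 2 * (n : ℝ) ^ (n - 2)) := by
    rw [div_mul_cancel₀]
    positivity
  set x : ℝ := (D1 : ℝ) / ((n : ℝ) * (n : ℝ) ^ (n - 2)) with hx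
  set y : ℝ := (D2 : ℝ) / ((n : ℝ) ^ 2 * (n : ℝ) ^ (n - 2)) with hy
  have hlt' : (k.factorial : ℝ) * (x * (n : ℝ)⁻¹) + y - 2 * c * x + c ^ 2 < η * c ^ 2 / 4 := hlt
  have hch := cheb P (fun p => (NP r p q : ℝ)) (c * n) (by positivity)
    (fun p => (NP r p q : ℝ) < c / 2 * (n : ℝ)) (fun p _ hp => by
      have : c * (n : ℝ) / 2 = c / 2 * n := by ring
      rw [this]
      exact hp)
  have hM1' : ∑ p ∈ P, (NP r p q : ℝ) = (D1 : ℝ) := by
    rw [← hM1]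
    push_cast
    rfl
  have hM2' : ∑ p ∈ P, (NP r p q : ℝ) ^ 2 ≤ (k.factorial : ℝ) * D1 + D2 := by
    have h1 : ((∑ p ∈ P, (NP r p q) ^ 2 : ℕ) : ℝ) ≤
        ((k.factorial * ∑ p ∈ P, NP r p q + D2 : ℕ) : ℝ) := by
      exact_mod_cast hM2
    rw [hM1] at h1
    push_cast at h1
    exact h1
  rw [hM1', hN] at hch
  have hfin : (((P.filter fun p => (NP r p q : ℝ) < c / 2 * (n : ℝ)).card : ℕ) : ℝ) *
      ((c * n) ^ 2 / 4) ≤ (n : ℝ) ^ 2 * (n : ℝ) ^ (n - 2) * (η * c ^ 2 / 4) := by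
    refine hch.trans ?_
    have h2 : (k.factorial : ℝ) * D1 + D2 - 2 * (c * n) * D1 + (c * n) ^ 2 * (n : ℝ) ^ (n - 2) =
        (n : ℝ) ^ 2 * (n : ℝ) ^ (n - 2) *
          ((k.factorial : ℝ) * (x * (n : ℝ)⁻¹) + y - 2 * c * x + c ^ 2) := by
      rw [hX1, hY1]
      field_simp
    have h3 : (n : ℝ) ^ 2 * (n : ℝ) ^ (n - 2) *
          ((k.factorial : ℝ) * (x * (n : ℝ)⁻¹) + y - 2 * c * x + c ^ 2) ≤
        (n : ℝ) ^ 2 * (n : ℝ) ^ (n - 2) * (η * c ^ 2 / 4) :=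
      mul_le_mul_of_nonneg_left hlt'.le (by positivity)
    linarith
  rw [hN]
  have h5 : (0 : ℝ) < (c * n) ^ 2 / 4 := by positivity
  refine le_of_mul_le_mul_right ?_ h5
  calc _ ≤ (n : ℝ) ^ 2 * (n : ℝ) ^ (n - 2) * (η * c ^ 2 / 4) := hfin
    _ = η * (n : ℝ) ^ (n - 2) * ((c * n) ^ 2 / 4) := by ring

end Pool.Agent.GX
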